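import Pool.Agent.Helper94.Tot.Goals

/-!
# Mertens' first theorem (packet M1 of MP_05f971_nt)
-/

set_option autoImplicit false

open Finset

namespace Pool.Agent.Helper75.Tot

open Pool.Agent.Helper94.Tot

theorem log_factorial_eq (n : ℕ) :
    Real.log ((2 ^ n).factorial : ℕ) =
      ∑ p ∈ PN n, (((2 ^ n).factorial).factorization p : ℝ) * Real.log p := by
  rw [Real.log_nat_eq_sum_factorization, Finsupp.sum]
  refine Finset.sum_subset ?_ ?_
  · intro p hp
    rw [Nat.support_factorization, Nat.mem_primeFactors] at hp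
    unfold PN
    rw [Finset.mem_filter, Finset.mem_Icc]
    exact ⟨⟨hp.1.one_lt.le, (hp.1.dvd_factorial).1 hp.2.1⟩, hp.1⟩
  · intro p _ hp
    rw [Finsupp.notMem_support_iff] at hp
    rw [hp]
    simp

theorem fact_lower {p N : ℕ} (hp : p.Prime) :
    (N : ℝ) / p - 1 ≤ ((N.factorial).factorization p : ℝ) := by
  have := Fact.mk hp
  have h1 : N / p ≤ (N.factorial).factorization p := by
    rw [Nat.factorization_def _ hp, padicValNat_factorial (b := Nat.log p N + 2) (by omega)]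
    have : N / p = N / p ^ 1 := by rw [pow_one]
    rw [this]
    exact Finset.single_le_sum (f := fun i => N / p ^ i) (fun _ _ => Nat.zero_le _)
      (Finset.mem_Ico.2 ⟨le_rfl, by omega⟩)
  have h2 : (N : ℝ) / p < (N / p : ℕ) + 1 := by
    have hp0 : (0 : ℝ) < p := by exact_mod_cast hp.pos
    rw [div_lt_iff₀ hp0]
    have := Nat.lt_mul_div_succ N hp.pos
    have h3 : (N : ℝ) < (p : ℝ) * ((N / p : ℕ) + 1) := by exact_mod_cast this
    linarith
  have h3 : ((N / p : ℕ) : ℝ) ≤ ((N.factorial).factorization p : ℝ) := by exact_mod_cast h1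
  linarith

theorem fact_upper {p N : ℕ} (hp : p.Prime) :
    ((N.factorial).factorization p : ℝ) ≤ (N : ℝ) / (p - 1) := by
  have := Fact.mk hp
  have h := sub_one_mul_padicValNat_factorial (p := p) N
  rw [← Nat.factorization_def _ hp] at h
  have h1 : (p - 1) * (N.factorial).factorization p ≤ N := by rw [h]; exact Nat.sub_le _ _
  have hp1 : (1 : ℝ) < p := by exact_mod_cast hp.one_lt
  rw [le_div_iff₀ (by linarith)]
  have h2 : (((p - 1) * (N.factorial).factorization p : ℕ) : ℝ) ≤ N := by exact_mod_cast h1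
  push_cast [Nat.cast_sub hp.one_lt.le] at h2
  linarith

theorem log_fact_upper (N : ℕ) : Real.log (N.factorial : ℕ) ≤ N * Real.log N := by
  rw [← Real.log_pow]
  refine Real.log_le_log (by exact_mod_cast N.factorial_pos) ?_
  exact_mod_cast N.factorial_le_pow

theorem log_fact_lower {N : ℕ} (hN : 0 < N) :
    N * Real.log N - N ≤ Real.log (N.factorial : ℕ) := by
  have h := Real.pow_div_factorial_le_exp (N : ℝ) (Nat.cast_nonneg N) N
  have hf : (0 : ℝ) < (N.factorial : ℕ) := by exact_mod_cast N.factorial_pos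
  rw [div_le_iff₀ hf] at h
  have hN' : (0 : ℝ) < N := by exact_mod_cast hN
  have h2 := Real.log_le_log (by positivity) h
  rw [Real.log_pow, Real.log_mul (Real.exp_pos _).ne' hf.ne', Real.log_exp] at h2
  linarith

theorem sum_theta (n : ℕ) : ∑ p ∈ PN n, Real.log p ≤ Real.log 4 * 2 ^ n := by
  have h := Chebyshev.theta_le_log4_mul_x (x := (2 : ℝ) ^ n) (by positivity)
  rw [Chebyshev.theta_eq_sum_Icc] at h
  refine le_trans (le_of_eq ?_) h
  have hfl : ⌊(2 : ℝ) ^ n⌋₊ = 2 ^ n := by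
    have : ((2 : ℝ) ^ n) = ((2 ^ n : ℕ) : ℝ) := by push_cast; rfl
    rw [this, Nat.floor_natCast]
  rw [hfl]
  refine Finset.sum_congr ?_ fun _ _ => rfl
  ext p
  unfold PN
  simp only [Finset.mem_filter, Finset.mem_Icc]
  constructor
  · rintro ⟨⟨-, h2⟩, h3⟩; exact ⟨⟨Nat.zero_le _, h2⟩, h3⟩
  · rintro ⟨⟨-, h2⟩, h3⟩; exact ⟨⟨h3.one_lt.le, h2⟩, h3⟩

theorem log_term {m : ℕ} (hm : 2 ≤ m) :
    Real.log m / ((m : ℝ) - 1) - Real.log m / m ≤ 2 * (1 / (m : ℝ) ^ (3 / 2 : ℝ)) := by
  have hm' : (2 : ℝ) ≤ m := by exact_mod_cast hm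
  have hm0 : (0 : ℝ) < m := by linarith
  set s := Real.sqrt m with hs
  have hs2 : s * s = m := Real.mul_self_sqrt hm0.le
  have hs1 : 1 < s := by
    rw [hs, Real.lt_sqrt (by norm_num)]
    linarith
  have hlog : Real.log m ≤ 2 * (s - 1) := by
    have h1 : Real.log m = 2 * Real.log s := by
      rw [← hs2, Real.log_mul (by linarith) (by linarith)]
      ring
    rw [h1]
    have := Real.log_le_sub_one_of_pos (show 0 < s by linarith)
    linarith
  have hrp : (m : ℝ) ^ (3 / 2 : ℝ) = m * s := by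
    rw [show (3 / 2 : ℝ) = 1 + 1 / 2 by norm_num, Real.rpow_add hm0, Real.rpow_one, hs,
      Real.sqrt_eq_rpow]
  rw [hrp]
  have h2 : Real.log m / ((m : ℝ) - 1) - Real.log m / m = Real.log m / (m * (m - 1)) := by
    field_simp [show (m : ℝ) - 1 ≠ 0 by linarith]
    ring
  have hm1 : (m : ℝ) - 1 = (s - 1) * (s + 1) := by rw [← hs2]; ring
  rw [h2]
  have h3 : 0 < (m : ℝ) * (m - 1) := mul_pos hm0 (by linarith)
  rw [div_le_iff₀ h3, hm1]
  have h4 : 2 * (1 / ((m : ℝ) * s)) * (m * ((s - 1) * (s + 1))) = 2 * (s - 1) * ((s + 1) / s) := by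
    field_simp
  rw [h4]
  have h5 : 1 ≤ (s + 1) / s := by
    rw [le_div_iff₀ (by linarith)]; linarith
  have h6 : 2 * (s - 1) * 1 ≤ 2 * (s - 1) * ((s + 1) / s) :=
    mul_le_mul_of_nonneg_left h5 (by linarith)
  linarith

theorem pf_M1 : StmtM1 := by
  have hsum : Summable fun m : ℕ => 2 * (1 / (m : ℝ) ^ (3 / 2 : ℝ)) :=
    (Real.summable_one_div_nat_rpow.2 (by norm_num)).mul_left 2
  set C0 := ∑' m : ℕ, 2 * (1 / (m : ℝ) ^ (3 / 2 : ℝ)) with hC0
  have hC0nn : 0 ≤ C0 := tsum_nonneg fun m => by positivity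
  have hl2 : 0 < Real.log 2 := Real.log_pos (by norm_num)
  have hl4 : 0 ≤ Real.log 4 := Real.log_nonneg (by norm_num)
  refine ⟨(Real.log 4 + 1 + C0) / Real.log 2, by positivity, fun n => ?_⟩
  set A : ℝ := ∑ p ∈ PN n, Real.log p / p with hA
  have hAl : ∑ p ∈ PN n, lg p / p = A / Real.log 2 := by
    rw [hA, Finset.sum_div]
    refine Finset.sum_congr rfl fun p _ => ?_
    unfold lg Real.logb
    ring
  have hprime : ∀ p ∈ PN n, p.Prime := fun p hp => (Finset.mem_filter.1 hp).2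
  have hN : (0 : ℝ) < 2 ^ n := by positivity
  have hcast : (((2 ^ n : ℕ)) : ℝ) = 2 ^ n := by push_cast; rfl
  have hlogN : Real.log ((2 ^ n : ℕ) : ℝ) = n * Real.log 2 := by
    rw [hcast, Real.log_pow]
  -- upper bound
  have hup : A ≤ n * Real.log 2 + Real.log 4 := by
    have h1 : ∑ p ∈ PN n, ((2 : ℝ) ^ n / p - 1) * Real.log p ≤ 2 ^ n * (n * Real.log 2) := by
      calc ∑ p ∈ PN n, ((2 : ℝ) ^ n / p - 1) * Real.log p
          ≤ ∑ p ∈ PN n, (((2 ^ n).factorial).factorization p : ℝ) * Real.log p := by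
            refine Finset.sum_le_sum fun p hp => ?_
            have h2 := fact_lower (N := 2 ^ n) (hprime p hp)
            rw [hcast] at h2
            exact mul_le_mul_of_nonneg_right h2
              (Real.log_nonneg (by exact_mod_cast (hprime p hp).one_lt.le))
        _ = Real.log ((2 ^ n).factorial : ℕ) := (log_factorial_eq n).symm
        _ ≤ ((2 ^ n : ℕ) : ℝ) * Real.log ((2 ^ n : ℕ) : ℝ) := log_fact_upper _
        _ = 2 ^ n * (n * Real.log 2) := by rw [hlogN, hcast]
    have h2 : ∑ p ∈ PN n, ((2 : ℝ) ^ n / p - 1) * Real.log p =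
        2 ^ n * A - ∑ p ∈ PN n, Real.log p := by
      rw [hA, Finset.mul_sum, ← Finset.sum_sub_distrib]
      refine Finset.sum_congr rfl fun p _ => ?_
      ring
    have h3 := sum_theta n
    rw [h2] at h1
    have h4 : 2 ^ n * A ≤ 2 ^ n * (n * Real.log 2 + Real.log 4) := by linarith
    exact le_of_mul_le_mul_left h4 hN
  -- lower bound
  have hlow : n * Real.log 2 - 1 - C0 ≤ A := by
    have h1 : (2 : ℝ) ^ n * (n * Real.log 2) - 2 ^ n ≤
        ∑ p ∈ PN n, (2 : ℝ) ^ n / (p - 1) * Real.log p := by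
      calc (2 : ℝ) ^ n * (n * Real.log 2) - 2 ^ n
          = ((2 ^ n : ℕ) : ℝ) * Real.log ((2 ^ n : ℕ) : ℝ) - ((2 ^ n : ℕ) : ℝ) := by
            rw [hlogN, hcast]
        _ ≤ Real.log ((2 ^ n).factorial : ℕ) := log_fact_lower (by positivity)
        _ = ∑ p ∈ PN n, (((2 ^ n).factorial).factorization p : ℝ) * Real.log p :=
            log_factorial_eq n
        _ ≤ ∑ p ∈ PN n, (2 : ℝ) ^ n / (p - 1) * Real.log p := by
            refine Finset.sum_le_sum fun p hp => ?_
            have h2 := fact_upper (N := 2 ^ n) (hprime p hp)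
            rw [hcast] at h2
            exact mul_le_mul_of_nonneg_right h2
              (Real.log_nonneg (by exact_mod_cast (hprime p hp).one_lt.le))
    have h2 : ∑ p ∈ PN n, (2 : ℝ) ^ n / (p - 1) * Real.log p ≤ 2 ^ n * (A + C0) := by
      have h3 : ∑ p ∈ PN n, (Real.log p / ((p : ℝ) - 1) - Real.log p / p) ≤ C0 := by
        calc ∑ p ∈ PN n, (Real.log p / ((p : ℝ) - 1) - Real.log p / p)
            ≤ ∑ p ∈ PN n, 2 * (1 / (p : ℝ) ^ (3 / 2 : ℝ)) :=
              Finset.sum_le_sum fun p hp => log_term (hprime p hp).two_le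
          _ ≤ C0 := hsum.sum_le_tsum _ fun m _ => by positivity
      rw [Finset.sum_sub_distrib] at h3
      have h4 : ∑ p ∈ PN n, (2 : ℝ) ^ n / (p - 1) * Real.log p =
          2 ^ n * ∑ p ∈ PN n, Real.log p / ((p : ℝ) - 1) := by
        rw [Finset.mul_sum]
        refine Finset.sum_congr rfl fun p _ => ?_
        ring
      rw [h4]
      refine mul_le_mul_of_nonneg_left ?_ hN.le
      linarith
    have h5 : (2 : ℝ) ^ n * (n * Real.log 2 - 1) ≤ 2 ^ n * (A + C0) := by linarith
    have := le_of_mul_le_mul_left h5 hN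
    linarith
  rw [hAl]
  have h6 : A / Real.log 2 - n = (A - n * Real.log 2) / Real.log 2 := by
    field_simp
  rw [h6, abs_div, abs_of_pos hl2]
  refine div_le_div_of_nonneg_right ?_ hl2.le
  rw [abs_le]
  constructor <;> linarith

end Pool.Agent.Helper75.Tot
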